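import Mathlib

/-!
Definitions: refutations whose lines are disjunctions of polynomial equations, or polynomials in
conjunctions of polynomial equations; the polynomial calculus; random CNFs.
-/

set_option autoImplicit false

namespace Pool.Agent.MP_9cec2c_lc.SZ

/-- A clause in the variables `Fin n` is a set of literals; the literal `(v, s)` is true at `x` if
`x v = s`. -/
abbrev Clause (n : ℕ) : Type := Finset (Fin n × Bool)

/-- The assignment `x` satisfies the clause `C`. -/
def Holds {n : ℕ} (C : Clause n) (x : Fin n → Bool) : Prop := ∃ l ∈ C, x l.1 = l.2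

/-- The polynomials of degree at most `t`, as functions on the cube: the linear combinations of the
products of at most `t` variables. -/
def Degree (K : Type) [Field K] (n t : ℕ) : Submodule K ((Fin n → Bool) → K) :=
  Submodule.span K {f | ∃ M : Finset (Fin n), M.card ≤ t ∧
    f = fun x => if ∀ v ∈ M, x v = true then 1 else 0}

open Classical in
/-- The polynomial calculus over the field `K` in degree `D`: `PC K F D p` says that the equation
`p = 0` can be derived from the clauses of `F`. The equation of a clause of at most `D` literals says
that the indicator function of the points where it is false is 0. The rules are addition,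
multiplication by a constant, and multiplication by a variable if the degree of the product is at
most `D`. -/
inductive PC (K : Type) [Field K] {n : ℕ} (F : Finset (Clause n)) (D : ℕ) :
    ((Fin n → Bool) → K) → Prop
  | ax (C : Clause n) : C ∈ F → C.card ≤ D → PC K F D fun x => if Holds C x then 0 else 1
  | add (p q : (Fin n → Bool) → K) : PC K F D p → PC K F D q → PC K F D (p + q)
  | smul (c : K) (p : (Fin n → Bool) → K) : PC K F D p → PC K F D (c • p)
  | mul (v : Fin n) (a : ℕ) (p : (Fin n → Bool) → K) : PC K F D p → p ∈ Degree K n a →
      a + 1 ≤ D → PC K F D fun x => if x v = true then p x else 0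

/-- The disjunction of the equations `f = 0`, `f ∈ G`, is true at `x`. -/
def SomeZero {K : Type} [Field K] {n : ℕ} (G : Set ((Fin n → Bool) → K)) (x : Fin n → Bool) :
    Prop := ∃ f ∈ G, f x = 0

/-- A refutation of `F` in resolution over parities with `S` lines. The line `i` is the disjunction
of the linear equations `f = 0`, `f ∈ line i`, modulo 2. Each line is implied by one clause of `F` or
by at most `r` earlier lines. Some line is false for all assignments. -/
structure ParityRefutation {n : ℕ} (F : Finset (Clause n)) (r S : ℕ) where
  /-- the lines -/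
  line : Fin S → Set ((Fin n → Bool) → ZMod 2)
  degree : ∀ i, ∀ f ∈ line i, f ∈ Degree (ZMod 2) n 1
  rule : ∀ i, (∃ C ∈ F, ∀ x, Holds C x → SomeZero (line i) x) ∨
    ∃ P : Finset (Fin S), P.card ≤ r ∧ (∀ j ∈ P, j < i) ∧
      ∀ x, (∀ j ∈ P, SomeZero (line j) x) → SomeZero (line i) x
  last : ∃ i, ∀ x, ¬ SomeZero (line i) x

/-- A refutation of `F` with `S` lines and local inferences. The line `i` is the disjunction of the
equations `f = 0`, `f ∈ line i`, of degree at most `t` over `K`. Each line contains a set `B` of
equations such that one of the following holds.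

- A clause `C` of `F` implies the disjunction of `B`, and `B` has at most `r + |C|` elements.
- The line is inferred from at most `r` earlier lines `j`. There are subsets `A j` of these lines such
that the line `j` without `A j` is contained in the line `i`, and the disjunctions of the sets `A j`
together imply the disjunction of `B`. The sets `A j` and `B` have at most `r` elements.

Some line is false for all assignments. -/
structure PolyRefutation (K : Type) [Field K] {n : ℕ} (F : Finset (Clause n)) (t r S : ℕ) where
  /-- the lines -/
  line : Fin S → Set ((Fin n → Bool) → K)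
  degree : ∀ i, ∀ f ∈ line i, f ∈ Degree K n t
  rule : ∀ i, ∃ B : Finset ((Fin n → Bool) → K), ↑B ⊆ line i ∧
    ((∃ C ∈ F, B.card ≤ r + C.card ∧
        ∀ x, Holds C x → SomeZero (B : Set ((Fin n → Bool) → K)) x) ∨
      ∃ (P : Finset (Fin S)) (A : Fin S → Finset ((Fin n → Bool) → K)),
        P.card ≤ r ∧ B.card ≤ r ∧
        (∀ j ∈ P, j < i ∧ (A j).card ≤ r ∧ ↑(A j) ⊆ line j ∧ line j ⊆ line i ∪ ↑(A j)) ∧
        ∀ x, (∀ j ∈ P, SomeZero (A j : Set ((Fin n → Bool) → K)) x) →
          SomeZero (B : Set ((Fin n → Bool) → K)) x)
  last : ∃ i, ∀ x, ¬ SomeZero (line i) x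

/-- A term: a set of functions `g`, read as the conjunction of the equations `g = 0`. -/
abbrev Term (K : Type) [Field K] (n : ℕ) : Type := Set ((Fin n → Bool) → K)

open Classical in
/-- The sum of the coefficients `c B` of the subsets `B` of `A` whose equations `g = 0`, `g ∈ B`, are
all true at `x`. -/
noncomputable def localValue {K : Type} [Field K] {n : ℕ} (A : Finset ((Fin n → Bool) → K))
    (c : Finset ((Fin n → Bool) → K) → K) (x : Fin n → Bool) : K :=
  ∑ B ∈ A.powerset, if ∀ g ∈ B, g x = 0 then c B else 0

/-- The polynomial calculus over terms. A line `Λ` is a linear combination of terms; it says that the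
sum of the coefficients of the terms that are true is 0. All terms have to be in `U`. The rules are
addition, multiplication by a constant and by a term of `U`, where the product of two terms is their
conjunction, and axioms: the line `∑ c B * (Γ ∪ B)`, where `B` are the subsets of a set `A` of
equations, is an axiom if the line `∑ c B * B` is true for all assignments and `A` has at most `r`
elements, or if it is true for all assignments that satisfy a clause `C` of `F` and `A` has at most
`r + |C|` elements. -/
inductive TermPC (K : Type) [Field K] {n : ℕ} (F : Finset (Clause n)) (r : ℕ)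
    (U : Set (Term K n)) : (Term K n →₀ K) → Prop
  | ax (Γ : Term K n) (A : Finset ((Fin n → Bool) → K)) (c : Finset ((Fin n → Bool) → K) → K) :
      (∀ B ⊆ A, c B ≠ 0 → Γ ∪ ↑B ∈ U) →
      (A.card ≤ r ∧ (∀ x, localValue A c x = 0) ∨
        ∃ C ∈ F, A.card ≤ r + C.card ∧ ∀ x, Holds C x → localValue A c x = 0) →
      TermPC K F r U (∑ B ∈ A.powerset, Finsupp.single (Γ ∪ ↑B) (c B))
  | add (Λ Λ' : Term K n →₀ K) : TermPC K F r U Λ → TermPC K F r U Λ' →
      TermPC K F r U (Λ + Λ')
  | smul (a : K) (Λ : Term K n →₀ K) : TermPC K F r U Λ → TermPC K F r U (a • Λ)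
  | mul (Γ : Term K n) (Λ : Term K n →₀ K) : Γ ∈ U → TermPC K F r U Λ →
      (∀ T ∈ Λ.support, Γ ∪ T ∈ U) → TermPC K F r U (Λ.mapDomain fun T => Γ ∪ T)

/-- The polynomial calculus over terms has a refutation of `F`, i.e. a derivation of `1 = 0`, in
which at most `S` different terms occur, which are conjunctions of equations `g = 0` of degree at
most `t`. -/
def TermRefutable (K : Type) [Field K] {n : ℕ} (F : Finset (Clause n)) (t r S : ℕ) : Prop :=
  ∃ U : Finset (Term K n), U.card ≤ S ∧ (∀ T ∈ U, ∀ g ∈ T, g ∈ Degree K n t) ∧
    TermPC K F r ↑U (Finsupp.single ∅ 1)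

/-- The CNF `F` is unsatisfiable. Every refutation of `F` in resolution over parities has at least
`2 ^ (n / M)` lines. For all `t ≥ 1`, every refutation of `F` whose lines are disjunctions of
equations of degree at most `t` over `K` has at least `2 ^ (n / M ^ t)` lines, and in every
refutation of `F` in the polynomial calculus over terms of degree at most `t` there are at least
`2 ^ (n / M ^ t)` different terms. -/
def Hard (K : Type) [Field K] (r M : ℕ) {n : ℕ} (F : Finset (Clause n)) : Prop :=
  (¬ ∃ x, ∀ C ∈ F, Holds C x) ∧
    (∀ S : ℕ, Nonempty (ParityRefutation F r S) → 2 ^ (n / M) ≤ S) ∧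
    ∀ t S : ℕ, 1 ≤ t → Nonempty (PolyRefutation K F t r S) ∨ TermRefutable K F t r S →
      2 ^ (n / M ^ t) ≤ S

/-- A list of `m` clauses with `w` literals. The variables of the clause `i` are the values of the
injection `(f i).1`, their signs are `(f i).2`. -/
abbrev ClauseList (n m w : ℕ) : Type := Fin m → (Fin w ↪ Fin n) × (Fin w → Bool)

/-- The CNF with the clauses of the list. -/
def toCNF {n m w : ℕ} (f : ClauseList n m w) : Finset (Clause n) :=
  Finset.univ.image fun i => Finset.univ.image fun e => ((f i).1 e, (f i).2 e)

end Pool.Agent.MP_9cec2c_lc.SZ
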