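import Pool.Agent.Lib.MP_9cec2c_lc.Mg.G049

/-!
The number of the terms of a refutation in the polynomial calculus over terms.
-/

set_option autoImplicit false
set_option linter.unusedSectionVars false

namespace Pool.Agent.MP_9cec2c_lc.SZ

open Finset
open Pool.Agent.MP_9cec2c_lc.SizeDeg (Pol Mult Closed pcs cf one_lt_K)

variable {n : ℕ} {K : Type} [Field K]

/-- Only terms in `U` occur. -/
theorem TermPC.support_subset {F : Finset (Clause n)} {r : ℕ} {U : Set (Term K n)}
    {Λ : Term K n →₀ K} (h : TermPC K F r U Λ) : ∀ T ∈ Λ.support, T ∈ U := by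
  classical
  induction h with
  | ax Γ A c hU _ =>
    intro T hT
    obtain ⟨B, hB, hBT⟩ := mem_biUnion.1 (Finsupp.support_finsetSum hT)
    have h1 : T = Γ ∪ ↑B := by
      have := Finsupp.support_single_subset hBT
      exact mem_singleton.1 this
    rw [h1]
    refine hU B (mem_powerset.1 hB) fun hc => ?_
    rw [hc, Finsupp.single_zero] at hBT
    exact notMem_empty _ hBT
  | add Λ Λ' _ _ h1 h2 =>
    intro T hT
    rcases mem_union.1 (Finsupp.support_add hT) with h | h
    · exact h1 T h
    · exact h2 T h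
  | smul a Λ _ h1 =>
    intro T hT
    exact h1 T (Finsupp.support_smul hT)
  | mul Γ Λ _ _ hU _ =>
    intro T hT
    obtain ⟨T', hT', rfl⟩ := mem_image.1 (Finsupp.mapDomain_support hT)
    exact hU T' hT'

variable [Fintype K]

/-- The lines are true modulo `J`. -/
theorem TermPC.sum_mem {F : Finset (Clause n)} {r w p : ℕ} {U : Set (Term K n)}
    {J : Submodule K ((Fin n → Bool) → K)} {D d τ t : ℕ} {f : (Fin n → Bool) → K}
    {P : Set ((Fin n → Bool) → K) → (Fin n → Bool) → K} (hM : Mult J D d τ t U f P)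
    (hJ : Closed J D) (hp : p = (Fintype.card K - 1) * t) (hw : ∀ C ∈ F, C.card ≤ w)
    (hF : ∀ C ∈ F, Lift.clausePoly K C ∈ J) (h1 : d + 3 * τ ≤ D)
    (h2 : d + 2 * τ + t + (r + w) * p ≤ D) (h3 : d + τ + w + (r + w) * p ≤ D)
    {Λ : Term K n →₀ K} (h : TermPC K F r U Λ) :
    (Λ.sum fun T c => c • (f * P T)) ∈ J := by
  classical
  have hzero : ∀ T : Term K n, (0 : K) • (f * P T) = 0 := fun T => zero_smul _ _
  have hadd : ∀ (T : Term K n) (a b : K), (a + b) • (f * P T) = a • (f * P T) + b • (f * P T) :=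
    fun T a b => add_smul _ _ _
  induction h with
  | ax Γ A c hU hval =>
    have hs : ((∑ B ∈ A.powerset, Finsupp.single (Γ ∪ ↑B) (c B) : Term K n →₀ K).sum
        fun T c => c • (f * P T)) = ∑ B ∈ A.powerset, c B • (f * P (Γ ∪ ↑B)) := by
      rw [← Finsupp.sum_finsetSum_index hzero hadd]
      refine sum_congr rfl fun B _ => ?_
      rw [Finsupp.sum_single_index (hzero _)]
    rw [hs]
    obtain ⟨A', hA'⟩ : ∃ A', A' = A.filter fun g => ∃ B ⊆ A, c B ≠ 0 ∧ g ∈ B := ⟨_, rfl⟩
    have hA'A : A' ⊆ A := by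
      rw [hA']
      exact filter_subset _ _
    have hB : ∀ B ∈ A.powerset, B ∉ A'.powerset → c B = 0 := by
      intro B hB hB'
      by_contra hc
      refine hB' (mem_powerset.2 fun g hg => ?_)
      rw [mem_powerset] at hB
      rw [hA', mem_filter]
      exact ⟨hB hg, B, hB, hc, hg⟩
    have hsum : ∑ B ∈ A.powerset, c B • (f * P (Γ ∪ ↑B)) =
        ∑ B ∈ A'.powerset, c B • (f * P (Γ ∪ ↑B)) := by
      refine (sum_subset (powerset_mono.2 hA'A) fun B hB1 hB2 => ?_).symm
      rw [hB B hB1 hB2, zero_smul]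
    have hvalue : ∀ x, localValue A c x = localValue A' c x := by
      intro x
      unfold localValue
      have h5 := Finset.sum_subset (powerset_mono.2 hA'A) (f := fun B =>
        @ite K (∀ g ∈ B, g x = 0) (decidableDforallFinset) (c B) 0) fun B hB1 hB2 => by
          rw [hB B hB1 hB2, ite_self]
      exact h5.symm
    rw [hsum]
    have hdeg : ∀ g ∈ A', g ∈ Pol K n t := by
      intro g hg
      rw [hA', mem_filter] at hg
      obtain ⟨-, B, hBA, hc, hgB⟩ := hg
      exact hM.deg _ (hU B hBA hc) g (Or.inr (mem_coe.2 hgB))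
    have hcard : A.card ≤ r + w → A'.card * p ≤ (r + w) * p := fun h =>
      Nat.mul_le_mul_right _ ((card_le_card hA'A).trans h)
    rcases hval with ⟨hr, hval⟩ | ⟨C, hC, hr, hval⟩
    · have h4 := hcard (hr.trans (Nat.le_add_right r w))
      refine hM.local hJ (w := w) (z := 0) hp hdeg (fun B hB hc => hU B (hB.trans hA'A) hc)
        (Submodule.zero_mem _) (Submodule.zero_mem _) (fun x hx => ?_) (by omega) (by omega)
        (by omega)
      have hx' : localValue A' c x ≠ 0 := by
        unfold localValue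
        convert hx
      rw [← hvalue] at hx'
      exact absurd (hval x) hx'
    · have h4 := hcard (hr.trans (Nat.add_le_add_left (hw C hC) r))
      refine hM.local hJ (w := w) (z := Lift.clausePoly K C) hp hdeg
        (fun B hB hc => hU B (hB.trans hA'A) hc) (hF C hC)
        (ResPoly.Poly_mono K (hw C hC) (SizeDeg.clausePoly_mem C)) (fun x hx => ?_) (by omega)
        (by omega) (by omega)
      have hx' : localValue A' c x ≠ 0 := by
        unfold localValue
        convert hx
      rw [← hvalue] at hx'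
      unfold Lift.clausePoly
      rw [if_pos]
      by_contra hcon
      exact hx' (hval x (holds_iff_not.2 hcon))
  | add Λ Λ' _ _ ih1 ih2 =>
    rw [Finsupp.sum_add_index' hzero hadd]
    exact Submodule.add_mem _ ih1 ih2
  | smul a Λ _ ih =>
    rw [Finsupp.sum_smul_index' hzero]
    have h4 : (Λ.sum fun T c => (a • c) • (f * P T)) = a • Λ.sum fun T c => c • (f * P T) := by
      rw [Finsupp.smul_sum]
      refine Finsupp.sum_congr fun T _ => ?_
      rw [smul_assoc]
    rw [h4]
    exact Submodule.smul_mem _ _ ih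
  | mul Γ Λ hΓ hΛ hU ih =>
    rw [Finsupp.sum_mapDomain_index hzero hadd]
    have h4 : (Λ.sum fun T c => c • (f * P (Γ ∪ T))) =
        (∑ T ∈ Λ.support, Λ T • (f * P (Γ ∪ T) - f * P T * P Γ)) +
          (Λ.sum fun T c => c • (f * P T)) * P Γ := by
      unfold Finsupp.sum
      rw [sum_mul, ← sum_add_distrib]
      refine sum_congr rfl fun T _ => ?_
      rw [smul_mul_assoc, ← smul_add, sub_add_cancel]
    rw [h4]
    refine Submodule.add_mem _ (Submodule.sum_mem _ fun T hT => Submodule.smul_mem _ _ ?_) ?_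
    · exact hM.union hJ hΓ (hΛ.support_subset T hT) (hU T hT) h1 (by omega)
    · refine hJ (d + τ) τ _ _ (by omega) ih ?_ (hM.P_mem Γ hΓ)
      unfold Finsupp.sum
      refine Submodule.sum_mem _ fun T hT => Submodule.smul_mem _ _ ?_
      exact ResPoly.Poly_mul K hM.f_mem (hM.P_mem T (hΛ.support_subset T hT))

/-- A refutation with few terms gives a derivation of small degree. -/
theorem term_core {F : Finset (Clause n)} {w r D e k t p : ℕ} (hw : ∀ C ∈ F, C.card ≤ w)
    (hp : p = (Fintype.card K - 1) * t) (hPC : ¬ Lift.PC K F D 1) {U : Finset (Term K n)}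
    (hU : ∀ T ∈ U, ∀ g ∈ T, g ∈ Degree K n t) (h : TermPC K F r ↑U (Finsupp.single ∅ 1))
    (hD : e + 3 * (k * p) + (w + 3 * t + (r + w) * p) ≤ D)
    (hcount : U.card * ((n + 1) ^ t * ((e + 1) ^ t + 2 * n ^ t) ^ k) <
      (2 * ((e + 1) ^ t + n ^ t)) ^ k) : False := by
  obtain ⟨f, P, hM⟩ := SizeDeg.exists_Mult (SizeDeg.pcs_closed K F D)
    (SizeDeg.one_notMem_pcs K hPC) U hU (by rw [← hp]; omega) hcount
  rw [← hp] at hM
  have h1 := h.sum_mem hM (SizeDeg.pcs_closed K F D) hp hw (fun C hC =>
    Submodule.subset_span (Lift.PC.ax C hC ((hw C hC).trans (by omega)))) (by omega) (by omega)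
    (by omega)
  rw [Finsupp.sum_single_index (h := fun T (c : K) => c • (f * P T)) (zero_smul K _), one_smul,
    hM.P_empty, mul_one] at h1
  exact hM.f_notMem h1

open Classical in
/-- The value of a term. -/
noncomputable def ind (x : Fin n → Bool) (T : Term K n) : K := if ∀ g ∈ T, g x = 0 then 1 else 0

theorem ind_union (x : Fin n → Bool) (S T : Term K n) : ind x (S ∪ T) = ind x S * ind x T := by
  classical
  unfold ind
  by_cases hS : ∀ g ∈ S, g x = 0
  · by_cases hT : ∀ g ∈ T, g x = 0
    · rw [if_pos hS, if_pos hT, one_mul, if_pos]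
      exact fun g hg => hg.elim (hS g) (hT g)
    · rw [if_neg hT, mul_zero, if_neg]
      exact fun h => hT fun g hg => h g (Or.inr hg)
  · rw [if_neg hS, zero_mul, if_neg]
    exact fun h => hS fun g hg => h g (Or.inl hg)

/-- Derivable lines are true for all satisfying assignments. -/
theorem TermPC.sound {F : Finset (Clause n)} {r : ℕ} {U : Set (Term K n)}
    {Λ : Term K n →₀ K} (h : TermPC K F r U Λ) {x : Fin n → Bool}
    (hx : ∀ C ∈ F, Holds C x) : (Λ.sum fun T c => c * ind x T) = 0 := by
  classical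
  have hzero : ∀ T : Term K n, (0 : K) * ind x T = 0 := fun T => zero_mul _
  have hadd : ∀ (T : Term K n) (a b : K), (a + b) * ind x T = a * ind x T + b * ind x T :=
    fun T a b => add_mul _ _ _
  induction h with
  | ax Γ A c hU hval =>
    rw [← Finsupp.sum_finsetSum_index hzero hadd]
    have h1 : ∑ B ∈ A.powerset, (Finsupp.single (Γ ∪ ↑B) (c B)).sum (fun T c => c * ind x T) =
        ind x Γ * localValue A c x := by
      unfold localValue
      rw [mul_sum]
      refine sum_congr rfl fun B _ => ?_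
      rw [Finsupp.sum_single_index (hzero _), ind_union]
      by_cases hB : ∀ g ∈ B, g x = 0
      · have h2 : ind x (B : Term K n) = 1 := by
          unfold ind
          exact if_pos fun g hg => hB g (mem_coe.1 hg)
        rw [h2, if_pos hB, mul_one, mul_comm]
      · have h2 : ind x (B : Term K n) = 0 := by
          unfold ind
          exact if_neg fun h => hB fun g hg => h g (mem_coe.2 hg)
        rw [h2, if_neg hB, mul_zero, mul_zero]
    rw [h1]
    have h3 : localValue A c x = 0 := by
      rcases hval with ⟨-, hval⟩ | ⟨C, hC, -, hval⟩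
      · exact hval x
      · exact hval x (hx C hC)
    rw [h3, mul_zero]
  | add Λ Λ' _ _ ih1 ih2 =>
    rw [Finsupp.sum_add_index' hzero hadd, ih1, ih2, add_zero]
  | smul a Λ _ ih =>
    rw [Finsupp.sum_smul_index' hzero]
    have h4 : (Λ.sum fun T c => (a • c) * ind x T) = a * Λ.sum fun T c => c * ind x T := by
      rw [Finsupp.mul_sum]
      refine Finsupp.sum_congr fun T _ => ?_
      rw [smul_eq_mul, mul_assoc]
    rw [h4, ih, mul_zero]
  | mul Γ Λ hΓ hΛ hU ih =>
    rw [Finsupp.sum_mapDomain_index hzero hadd]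
    have h4 : (Λ.sum fun T c => c * ind x (Γ ∪ T)) = ind x Γ * Λ.sum fun T c => c * ind x T := by
      rw [Finsupp.mul_sum]
      refine Finsupp.sum_congr fun T _ => ?_
      rw [ind_union]
      ring
    rw [h4, ih, mul_zero]

/-- **Size and degree** for the polynomial calculus over terms. -/
theorem term_size {F : Finset (Clause n)} {w r S D t : ℕ} (hw : ∀ C ∈ F, C.card ≤ w)
    (ht : 1 ≤ t) (hPC : ¬ PC K F D 1) (hS : TermRefutable K F t r S) :
    2 ^ ((D - (w + 3 * t + (w + r) * ((Fintype.card K - 1) * t))) ^ (t + 1) /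
      (48 * ((Fintype.card K - 1) * t) * (2 * n) ^ t)) ≤ (n + 1) ^ t * S := by
  classical
  obtain ⟨U, hUS, hU, h⟩ := hS
  refine le_trans ?_ (Nat.mul_le_mul_left _ hUS)
  have hK := one_lt_K (K := K)
  have hPC' : ¬ Lift.PC K F D 1 := fun h => hPC (pc_of h)
  obtain ⟨p, hp⟩ : ∃ p, p = (Fintype.card K - 1) * t := ⟨_, rfl⟩
  rw [← hp]
  have hp0 : 0 < p := by
    rw [hp]
    exact Nat.mul_pos (by omega) ht
  have hU0 : 0 < U.card := by
    refine card_pos.2 ⟨∅, ?_⟩
    refine h.support_subset ∅ ?_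
    rw [Finsupp.mem_support_iff, Finsupp.single_eq_same]
    exact one_ne_zero
  have hDn : D ≤ n := by
    by_contra hcon
    refine hPC' (SizeDeg.pc_complete ?_ (by omega))
    rintro ⟨x, hx⟩
    have h1 := h.sound (x := x) fun C hC => holds_iff_not.2 (hx C hC)
    rw [Finsupp.sum_single_index (zero_mul _), one_mul] at h1
    unfold ind at h1
    rw [if_pos fun g hg => absurd hg (Set.notMem_empty g)] at h1
    exact one_ne_zero h1
  obtain ⟨E, hE⟩ : ∃ E, E = D - (w + 3 * t + (w + r) * p) := ⟨_, rfl⟩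
  rw [← hE]
  rcases Nat.eq_zero_or_pos (E ^ (t + 1) / (48 * p * (2 * n) ^ t)) with hm | hm
  · rw [hm, pow_zero]
    exact Nat.mul_pos (pow_pos (Nat.succ_pos n) t) hU0
  have hE0 : 0 < E := by
    rcases Nat.eq_zero_or_pos E with h | h
    · rw [h, zero_pow (by omega), Nat.zero_div] at hm
      exact absurd hm (lt_irrefl 0)
    · exact h
  by_contra hcon
  push Not at hcon
  obtain ⟨e, k, hek, hnum⟩ := SizeDeg.exists_numbers3 (show 0 < t by omega) hp0
    (show E + 1 ≤ n by omega) hm
  refine term_core (e := e) (k := k) hw hp hPC' hU h ?_ ?_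
  · rw [add_comm r w]
    omega
  · have hA0 : 0 < ((e + 1) ^ t + 2 * n ^ t) ^ k := by positivity
    calc U.card * ((n + 1) ^ t * ((e + 1) ^ t + 2 * n ^ t) ^ k) =
        (n + 1) ^ t * U.card * ((e + 1) ^ t + 2 * n ^ t) ^ k := by ring
      _ < 2 ^ (E ^ (t + 1) / (48 * p * (2 * n) ^ t)) * ((e + 1) ^ t + 2 * n ^ t) ^ k :=
          Nat.mul_lt_mul_of_pos_right hcon hA0
      _ ≤ _ := hnum

end Pool.Agent.MP_9cec2c_lc.SZ
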