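import Pool.Agent.Lib.MP_9cec2c_lc.Mg.G047
import Pool.Agent.Lib.MP_9cec2c_lc.SZ.TermMain

/-!
Random CNFs need exponentially long refutations.
-/

set_option autoImplicit false
set_option linter.unusedSectionVars false

namespace Pool.Agent.MP_9cec2c_lc.SZ

open Finset
open Pool.Agent.MP_9cec2c_lc.LovSch (pr_sat nonempty_emb)
open Pool.Agent.MP_9cec2c_lc.SubstRed
open Pool.Agent.MP_9cec2c_lc.FormulaLines
open Pool.Agent.MP_9cec2c_lc.SumProd (cvars card_cvars Fair pr_not_fair)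
open Pool.Agent.MP_9cec2c_lc.SizeDeg (one_lt_K not_pc_of_fair rand_numbers)

variable {n m w : ℕ} {K : Type} [Field K]

theorem toCNF_card {f : ClauseList n m w} : ∀ C ∈ toCNF f, C.card ≤ w := by
  classical
  intro C hC
  obtain ⟨j, -, rfl⟩ := mem_image.1 hC
  refine card_image_le.trans ?_
  rw [card_univ, Fintype.card_fin]

/-- The two definitions of the polynomial calculus agree. -/
theorem pc_to {F : Finset (Clause n)} {D : ℕ} {p : (Fin n → Bool) → K} (h : PC K F D p) :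
    Lift.PC K F D p := by
  classical
  induction h with
  | ax C hC hD =>
    have h1 : Lift.clausePoly K C = fun x => if Holds C x then 0 else 1 := by
      funext x
      unfold Lift.clausePoly
      by_cases h : Lift.FalseAt C x
      · rw [if_pos h, if_neg]
        exact fun h1 => holds_iff_not.1 h1 h
      · rw [if_neg h, if_pos]
        exact holds_iff_not.2 h
    have h2 := Lift.PC.ax (K := K) (D := D) C hC hD
    rw [h1] at h2
    convert h2
  | add p q _ _ hp hq => exact Lift.PC.add p q hp hq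
  | smul c p _ hp => exact Lift.PC.smul c p hp
  | mul v a p _ hpa ha hp =>
    have h1 : ResPoly.mon K {v} * p = fun x => if x v = true then p x else 0 := by
      funext x
      rw [Pi.mul_apply]
      unfold ResPoly.mon
      by_cases h : x v = true
      · rw [if_pos h, if_pos, one_mul]
        intro u hu
        rw [mem_singleton.1 hu]
        exact h
      · rw [if_neg h, if_neg, zero_mul]
        exact fun h1 => h (h1 v (mem_singleton_self v))
    rw [← h1]
    exact Lift.PC.mul v a p hp hpa ha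

variable [Fintype K]

/-- A fair unsatisfiable list is hard. -/
theorem hard_of_fair {c θ rr N r q A a H M Q1 Q2 Q3 : ℕ} (hw : 3 ≤ w) (hN : 16 ≤ N)
    {f : ClauseList n m w} (hf : Fair N c θ rr f) (hA : 1 ≤ A)
    (hrr : rr = n / (A * w)) (hq : q = Fintype.card K - 1)
    (ha : a = w + (w + r + r ^ 2 + 3) * (q + 1) + 4) (hH : H = 160 * A)
    (hQ1 : Q1 = 16 * 20 * 1 * H * (2 * H) ^ 1) (hQ2 : Q2 = 16 * (32 * q) * q * H * (2 * H) ^ q)
    (hQ3 : Q3 = 16 * (48 * q) * 1 * H * (2 * H) ^ 1)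
    (hM : Q1 ^ 4 + Q2 ^ 4 + Q3 ^ 4 + 640 * (A * (a * q)) + 640 * (A * (a * 1)) + 2 * (A * w) +
      80 * (A * w) ≤ M)
    (hMn : M ≤ n) (hsat : ∀ x : Fin n → Bool, ∃ i, ∀ e, x ((f i).1 e) ≠ (f i).2 e) :
    Hard K r M (toCNF f) := by
  classical
  have hK := one_lt_K (K := K)
  have hq1 : 1 ≤ q := by omega
  have hAw : A ≤ A * w := Nat.le_mul_of_pos_right _ (by omega)
  have hAw' : w ≤ A * w := Nat.le_mul_of_pos_left _ (by omega)
  have hqq : w + r + r ^ 2 + 3 ≤ (w + r + r ^ 2 + 3) * (q + 1) :=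
    Nat.le_mul_of_pos_right _ (by omega)
  have ha1 : 1 ≤ a := by omega
  obtain ⟨D, hD⟩ : ∃ D, D = n / (40 * A) := ⟨_, rfl⟩
  -- the degree
  have hwD : w ≤ D := by
    rw [hD, Nat.le_div_iff_mul_le (by omega)]
    have h1 : w * (40 * A) = 40 * (A * w) := by ring
    omega
  have h20 : 20 * D ≤ w * rr := by
    have h1 := Nat.lt_div_mul_add (a := n) (show 0 < A * w by omega)
    rw [← hrr] at h1
    have h2 : D * (40 * A) ≤ n := by
      rw [hD]
      exact Nat.div_mul_le_self _ _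
    refine Nat.le_of_mul_le_mul_left (c := 2 * A) ?_ (by omega)
    have h3 : 2 * A * (20 * D) = D * (40 * A) := by ring
    have h4 : 2 * A * (w * rr) = 2 * (rr * (A * w)) := by ring
    omega
  have hrr1 : 1 ≤ rr := by
    rcases Nat.eq_zero_or_pos rr with h | h
    · rw [h, mul_zero] at h20
      omega
    · exact h
  have hPC : ¬ PC K (toCNF f) D 1 := fun h => not_pc_of_fair hw hN hf h20 hrr1 hwD (pc_to h)
  refine ⟨?_, ?_, ?_⟩
  · rintro ⟨x, hx⟩
    obtain ⟨i, hi⟩ := hsat x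
    obtain ⟨l, hl, hlx⟩ := hx _ (mem_image_of_mem _ (mem_univ i))
    obtain ⟨e, -, rfl⟩ := mem_image.1 hl
    exact hi e hlx
  · rintro S ⟨π⟩
    have hPC2 : ¬ PC (ZMod 2) (toCNF f) D 1 := fun h =>
      not_pc_of_fair hw hN hf h20 hrr1 hwD (pc_to h)
    have h1 := parity_size (toCNF_card (f := f)) hPC2 π
    have h3 := rand_numbers (n := n) (M := M) (q := 1) (t := 1) (T := 1) (s := 20) (a := a)
      (E := D - (w + r ^ 2 + 4)) le_rfl (by norm_num) hA ha1 le_rfl rfl hH hQ1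
      (by omega) (by omega) (by rw [pow_one]; exact hMn) hD (by omega)
    rw [pow_one, pow_one, pow_one] at h3
    have h4 : 20 * 1 * (2 * n) = 40 * n := by ring
    rw [h4] at h3
    exact Nat.le_of_mul_le_mul_left (c := n + 1) (h3.trans h1) (by omega)
  · intro t S ht hS
    rcases Nat.eq_zero_or_pos (n / M ^ t) with h0 | h0
    · rw [h0, pow_zero]
      rcases hS with ⟨⟨π⟩⟩ | ⟨U, hUS, -, h⟩
      · obtain ⟨i, -⟩ := π.last
        exact Fin.pos i
      · refine le_trans (card_pos.2 ⟨∅, h.support_subset ∅ ?_⟩) hUS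
        rw [Finsupp.mem_support_iff, Finsupp.single_eq_same]
        exact one_ne_zero
    have hMt : M ^ t ≤ n := by
      by_contra hcon
      rw [Nat.div_eq_of_lt (by omega)] at h0
      exact lt_irrefl 0 h0
    rcases hS with ⟨⟨π⟩⟩ | hS
    · obtain ⟨T, hT⟩ : ∃ T, T = q * t := ⟨_, rfl⟩
      have hT1 : 1 ≤ T := by
        rw [hT]
        exact Nat.mul_pos hq1 ht
      have h1 := poly_size (T := T) (toCNF_card (f := f)) (by rw [hT, hq]) ht hPC π
      rw [← hq] at h1
      have h5 : 32 * (q * T) = 32 * q * T := by ring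
      rw [h5] at h1
      have h2 : w + (w + r + r ^ 2 + 3) * T ≤ 2 * (a * T) := by
        have h6 : w * 1 ≤ a * T := Nat.mul_le_mul (by omega) hT1
        have h7 : (w + r + r ^ 2 + 3) * T ≤ a * T := Nat.mul_le_mul_right _ (by omega)
        omega
      have h3 := rand_numbers (n := n) (M := M) (s := 32 * q) (a := a)
        (E := D - (w + (w + r + r ^ 2 + 3) * T)) hq1 (by omega) hA ha1 ht hT hH hQ2
        (by omega) (by omega) hMt hD (by omega)
      exact Nat.le_of_mul_le_mul_left (c := (n + 1) ^ T) (h3.trans h1) (pow_pos (by omega) _)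
    · have h1 := term_size (toCNF_card (f := f)) ht hPC hS
      rw [← hq] at h1
      have h5 : 48 * (q * t) = 48 * q * t := by ring
      rw [h5] at h1
      have h2 : w + 3 * t + (w + r) * (q * t) ≤ 2 * (a * t) := by
        have h6 : (w + 3 + (w + r) * q) * t ≤ a * t := by
          refine Nat.mul_le_mul_right _ ?_
          have h8 : (w + r) * q ≤ (w + r + r ^ 2 + 3) * (q + 1) :=
            Nat.mul_le_mul (by omega) (by omega)
          omega
        have h7 : (w + 3 + (w + r) * q) * t = w * t + 3 * t + (w + r) * (q * t) := by ring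
        have h9 : w ≤ w * t := Nat.le_mul_of_pos_right _ ht
        omega
      have h3 := rand_numbers (n := n) (M := M) (q := 1) (s := 48 * q) (a := a) (T := t)
        (E := D - (w + 3 * t + (w + r) * (q * t))) le_rfl (by omega) hA ha1 ht
        (one_mul t).symm hH hQ3 (by omega) (by omega) hMt hD (by omega)
      exact Nat.le_of_mul_le_mul_left (c := (n + 1) ^ t) (h3.trans h1) (pow_pos (by omega) _)

/-- **Random CNFs** are hard for all degrees at the same time. -/
theorem random_hard (K : Type) [Field K] [Fintype K] (w r Δ : ℕ) (hw : 3 ≤ w) :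
    ∃ M : ℕ, 0 < M ∧ ∀ n m : ℕ, n * 2 ^ w ≤ m → m ≤ Δ * n →
      n * {f : ClauseList n m w | ¬ Hard K r M (toCNF f)}.ncard ≤
        M * Fintype.card (ClauseList n m w) := by
  classical
  obtain ⟨c, hc⟩ : ∃ c, c = Δ + 1 := ⟨_, rfl⟩
  obtain ⟨A, hA⟩ : ∃ A, A = (96 * c) ^ (2 * 16) := ⟨_, rfl⟩
  have hA1 : 1 ≤ A := by
    rw [hA]
    exact Nat.one_le_pow _ _ (by omega)
  obtain ⟨B, hB⟩ : ∃ B, B = 2 * 16 * (24 * c) ^ (2 * 16) + 1 := ⟨_, rfl⟩
  obtain ⟨q, hq⟩ : ∃ q, q = Fintype.card K - 1 := ⟨_, rfl⟩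
  obtain ⟨a, ha⟩ : ∃ a, a = w + (w + r + r ^ 2 + 3) * (q + 1) + 4 := ⟨_, rfl⟩
  obtain ⟨H, hH⟩ : ∃ H, H = 160 * A := ⟨_, rfl⟩
  obtain ⟨Q1, hQ1⟩ : ∃ Q, Q = 16 * 20 * 1 * H * (2 * H) ^ 1 := ⟨_, rfl⟩
  obtain ⟨Q2, hQ2⟩ : ∃ Q, Q = 16 * (32 * q) * q * H * (2 * H) ^ q := ⟨_, rfl⟩
  obtain ⟨Q3, hQ3⟩ : ∃ Q, Q = 16 * (48 * q) * 1 * H * (2 * H) ^ 1 := ⟨_, rfl⟩
  obtain ⟨M, hM⟩ : ∃ M, M = Q1 ^ 4 + Q2 ^ 4 + Q3 ^ 4 + 640 * (A * (a * q)) +
      640 * (A * (a * 1)) + 2 * (A * w) + 80 * (A * w) := ⟨_, rfl⟩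
  have hAw : A ≤ A * w := Nat.le_mul_of_pos_right _ (by omega)
  have hAw' : w ≤ A * w := Nat.le_mul_of_pos_left _ (by omega)
  refine ⟨M + B + 1, by omega, fun n m hm1 hm2 => ?_⟩
  rcases Nat.lt_or_ge n (M + B + 1) with hn | hn
  · refine Nat.mul_le_mul hn.le ?_
    rw [← Nat.card_eq_fintype_card]
    exact Set.ncard_le_card _
  have hwn : w ≤ n := by omega
  have hne := nonempty_emb hwn
  have hpos : (0 : ℝ) < Fintype.card (ClauseList n m w) := by exact_mod_cast Fintype.card_pos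
  have hn' : (0 : ℝ) < n := by exact_mod_cast (by omega : 0 < n)
  have hm3 : m ≤ n * c ^ w := by
    refine hm2.trans ?_
    rw [mul_comm]
    refine Nat.mul_le_mul_left _ ?_
    rw [hc]
    exact (Nat.le_succ Δ).trans (Nat.le_self_pow (by omega) _)
  obtain ⟨rr, hrr⟩ : ∃ rr, rr = n / (A * w) := ⟨_, rfl⟩
  have hfair : (n : ℝ) * pr (fun f : ClauseList n m w => ¬ Fair 16 c 1 rr f) ≤ B := by
    have h := pr_not_fair (c := c) (θ := 1) (N := 16) (r := rr) hwn hw (by omega) (by omega) hm3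
      le_rfl (by
        rw [← hA, ← mul_assoc, hrr]
        exact Nat.mul_div_le _ _)
    rw [hB]
    push_cast at h ⊢
    linarith
  have hmain : pr (fun f : ClauseList n m w => ¬ Hard K r (M + B + 1) (toCNF f)) ≤
      (3 / 4) ^ n + pr (fun f : ClauseList n m w => ¬ Fair 16 c 1 rr f) := by
    refine le_trans (pr_mono (q := fun f : ClauseList n m w =>
      (∃ x : Fin n → Bool, ∀ i, ¬ ∀ e, x ((f i).1 e) ≠ (f i).2 e) ∨ ¬ Fair 16 c 1 rr f)
      fun f hf => ?_) ((pr_or _ _).trans (add_le_add (pr_sat hwn hm1) le_rfl))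
    by_contra hcon
    rw [not_or] at hcon
    obtain ⟨h1, h2⟩ := hcon
    push Not at h1 h2
    exact hf (hard_of_fair hw le_rfl h2 hA1 hrr hq ha hH hQ1 hQ2 hQ3 (by omega) hn h1)
  have hsat : (n : ℝ) * (3 / 4) ^ n ≤ 1 / 2 := by
    have key : ∀ k : ℕ, ((k + 16 : ℕ) : ℝ) * (3 / 4) ^ (k + 16) ≤ 1 / 2 := by
      intro k
      induction k with
      | zero => norm_num
      | succ k ih =>
        have h1 : (0 : ℝ) < (3 / 4) ^ (k + 16) := by positivity
        have h2 : (3 / 4 : ℝ) ^ (k + 1 + 16) = (3 / 4) ^ (k + 16) * (3 / 4) := by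
          rw [← pow_succ]
        rw [h2]
        push_cast at ih ⊢
        nlinarith
    obtain ⟨k, hk⟩ : ∃ k, n = k + 16 := ⟨n - 16, by omega⟩
    rw [hk]
    exact key k
  have h0 : {f : ClauseList n m w | ¬ Hard K r (M + B + 1) (toCNF f)}.ncard ≤
      (univ.filter fun f : ClauseList n m w => ¬ Hard K r (M + B + 1) (toCNF f)).card := by
    rw [← Set.ncard_coe_finset]
    refine Set.ncard_le_ncard (fun f hf => ?_) (Set.toFinite _)
    rw [mem_coe, mem_filter]
    exact ⟨mem_univ _, hf⟩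
  have h := mul_le_mul_of_nonneg_left hmain hn'.le
  rw [mul_add, pr_eq, ← mul_div_assoc] at h
  have h2 : (n : ℝ) * ((univ.filter fun f : ClauseList n m w =>
      ¬ Hard K r (M + B + 1) (toCNF f)).card : ℝ) / Fintype.card (ClauseList n m w) ≤
      ((M + B + 1 : ℕ) : ℝ) := by
    push_cast
    have : (0 : ℝ) ≤ M := Nat.cast_nonneg M
    linarith
  rw [div_le_iff₀ hpos] at h2
  have h3 : (n : ℝ) * ({f : ClauseList n m w |
      ¬ Hard K r (M + B + 1) (toCNF f)}.ncard : ℝ) ≤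
      ((M + B + 1 : ℕ) : ℝ) * Fintype.card (ClauseList n m w) := by
    refine le_trans ?_ h2
    have h4 : ({f : ClauseList n m w | ¬ Hard K r (M + B + 1) (toCNF f)}.ncard : ℝ) ≤
      ((univ.filter fun f : ClauseList n m w =>
        ¬ Hard K r (M + B + 1) (toCNF f)).card : ℝ) := by exact_mod_cast h0
    gcongr
  exact_mod_cast h3

end Pool.Agent.MP_9cec2c_lc.SZ
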